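import Pool.Agent.Y692.PP.Abel

/-!
# Project PP: upper bound of `log L` near `1` (job PP-A3)
-/

set_option autoImplicit false

open Finset

namespace Pool.Agent.Y692.PP

open Pool.Agent.Y690.PP

theorem sg_one : sg 1 = 1 := by
  unfold sg
  rw [if_pos]
  refine ⟨0, 0, ⟨0, rfl⟩, ?_⟩
  have : (⟨0, 0⟩ : G) = 0 := rfl
  rw [this, mul_zero, add_zero]

theorem sg_abs (v : G) : |(sg v : ℝ)| ≤ 1 := by
  unfold sg
  split_ifs <;> simp

theorem hh_of {A : Finset Pr} {e : ℕ} {v : G} (hv : Prm v) :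
    hh A ∅ e v = (sg v : ℝ) ^ e * chi A v := by
  unfold hh chi
  rw [if_pos hv, Finset.prod_empty, mul_one]

theorem hh_zero (A : Finset Pr) (e : ℕ) : hh A ∅ e 0 = 0 := by
  unfold hh
  rw [if_neg]
  exact fun h => prm_ne_zero h rfl

theorem hh_one (A : Finset Pr) (e : ℕ) : hh A ∅ e 1 = 1 := by
  rw [hh_of prm_one, sg_one, chi_one]
  norm_num

theorem hh_abs (A : Finset Pr) (e : ℕ) (v : G) : |hh A ∅ e v| ≤ 1 := by
  by_cases hv : Prm v
  · rw [hh_of hv, abs_mul, abs_pow]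
    exact mul_le_one₀ (pow_le_one₀ (abs_nonneg _) (sg_abs v)) (abs_nonneg _) (chi_abs A v)
  · unfold hh
    rw [if_neg hv, abs_zero]
    exact zero_le_one

theorem hh_mul (h1 : SMULT) (A : Finset Pr) (e : ℕ) {v w : G} (hv : Prm v) (hw : Prm w) :
    hh A ∅ e (v * w) = hh A ∅ e v * hh A ∅ e w := by
  rw [hh_of hv, hh_of hw, hh_of (prm_mul hv hw), h1.2.2.1 v w hv hw, chi_mul h1, Int.cast_mul,
    mul_pow]
  ring

theorem hh_pd (h1 : SMULT) (A : Finset Pr) (e : ℕ) (B : Finset Pr) :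
    hh A ∅ e (pd B) = ∏ p ∈ B, hh A ∅ e p.1 := by
  classical
  induction B using Finset.induction_on with
  | empty =>
    unfold pd
    rw [Finset.prod_empty, Finset.prod_empty, hh_one]
  | insert p B hp ih =>
    have h2 : pd (insert p B) = p.1 * pd B := Finset.prod_insert hp
    rw [h2, hh_mul h1 A e p.2.2 (prm_pd B), ih, Finset.prod_insert hp]

theorem log_ge {x : ℝ} (hx : -(1 / 2) ≤ x) : x - 2 * x ^ 2 ≤ Real.log (1 + x) := by
  have h0 : 0 < 1 + x := by linarith
  refine le_trans ?_ (Real.one_sub_inv_le_log_of_pos h0)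
  have h1 : 1 - (1 + x)⁻¹ = x / (1 + x) := by
    field_simp
    ring
  rw [h1, le_div_iff₀ h0]
  nlinarith [mul_nonneg (sq_nonneg x) (by linarith : (0 : ℝ) ≤ 1 + 2 * x)]

/-- the primary elements -/
abbrev Tp : Type := {t : G // Prm t}

/-- factorization of primary elements -/
noncomputable def facEquiv (h4 : SFAC) : Tp × Finset Pr ≃ Tp :=
  Equiv.ofBijective
    (fun x => ⟨x.1.1 ^ 2 * pd x.2, prm_mul (by rw [sq]; exact prm_mul x.1.2 x.1.2) (prm_pd x.2)⟩)
    (by
      constructor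
      · rintro ⟨t, A⟩ ⟨t', A'⟩ h
        have h1 := congrArg Subtype.val h
        obtain ⟨h2, h3⟩ := h4.2 t.1 t'.1 A A' t.2 t'.2 h1
        rw [Subtype.ext h2, h3]
      · rintro ⟨v, hv⟩
        obtain ⟨t, A, ht, hvt⟩ := h4.1 v hv
        exact ⟨(⟨t, ht⟩, A), Subtype.ext hvt.symm⟩)

theorem facEquiv_apply (h4 : SFAC) (t : Tp) (A : Finset Pr) :
    (facEquiv h4 (t, A)).1 = t.1 ^ 2 * pd A := rfl

theorem t_A3 (h1 : SMULT) (h2 : SMEAN) (h3 : SDISC) (h4 : SFAC) : A3 gN gs gt := by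
  classical
  obtain ⟨C, hC1, hC⟩ := partial_le h3
  set Z : ℝ := ∑' v : G, (nm v : ℝ) ^ (-2 : ℝ) with hZ
  have hZs : Summable (fun v : G => (nm v : ℝ) ^ (-2 : ℝ)) := summable_nm (by norm_num) le_rfl
  have hlog8 : 0 ≤ Real.log 8 := Real.log_nonneg (by norm_num)
  refine ⟨Real.log (C * (1 + Real.log 8)) + 2 * Z, fun A e hAe _ σ hσ1 hσ2 => ?_⟩
  set h : G → ℝ := hh A ∅ e with hh'
  set M : ℕ := 8 * NN gN A * NN gN ∅ with hM
  have hNN1 : 1 ≤ NN gN A := NN_pos A
  have hNNe : NN gN (∅ : Finset Pr) = 1 := by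
    unfold NN
    rw [Finset.prod_empty]
  have hMv : M = 8 * NN gN A := by rw [hM, hNNe, mul_one]
  have hM1 : 1 ≤ M := by omega
  -- the function on primes
  set f : Pr → ℝ := fun p => h p.1 * (gN p : ℝ) ^ (-σ) with hf
  have hfeq : ∀ p : Pr, gt p ^ e * (∏ q ∈ A, gs q p) * (gN p : ℝ) ^ (-σ) = f p := by
    intro p
    rw [hf]
    simp only
    rw [hh', hh_of p.2.2]
    rfl
  rw [tsum_congr hfeq]
  -- summability
  have hsN := summable_nm hσ1 hσ2
  have hfabs : ∀ p, |f p| ≤ (nm p.1 : ℝ) ^ (-σ) := by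
    intro p
    rw [hf]
    simp only
    rw [abs_mul, abs_of_nonneg (Real.rpow_nonneg (Nat.cast_nonneg (gN p)) _)]
    exact mul_le_of_le_one_left (Real.rpow_nonneg (Nat.cast_nonneg _) _) (hh_abs A e p.1)
  have hfs : Summable (fun p => ‖f p‖) :=
    Summable.of_nonneg_of_le (fun _ => norm_nonneg _) hfabs
      (hsN.comp_injective Subtype.val_injective)
  have hfs' : Summable f := hfs.of_norm
  have hfhalf : ∀ p, |f p| ≤ 1 / 2 := by
    intro p
    refine (hfabs p).trans ?_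
    have h5 : 2 ≤ nm p.1 := nm_prime p.2.1
    have h6 := rpow_neg_le hσ1.le (n := nm p.1) (by omega)
    refine h6.trans ?_
    exact one_div_le_one_div_of_le (by norm_num) (by exact_mod_cast h5)
  have hfpos : ∀ p, 0 < 1 + f p := fun p => by
    have := (abs_le.1 (hfhalf p)).1
    linarith
  -- the L-function
  have hLs : Summable (fun v : G => h v * (nm v : ℝ) ^ (-σ)) := by
    refine Summable.of_norm_bounded hsN fun v => ?_
    rw [Real.norm_eq_abs, abs_mul, abs_of_nonneg (Real.rpow_nonneg (Nat.cast_nonneg (nm v)) _)]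
    exact mul_le_of_le_one_left (Real.rpow_nonneg (Nat.cast_nonneg _) _) (hh_abs A e v)
  set L : ℝ := ∑' v : G, h v * (nm v : ℝ) ^ (-σ) with hL
  have hLle : L ≤ C * (1 + Real.log M) := by
    have hmono : Monotone (fun X : ℕ => disc (X : ℝ)) := by
      intro X Y hXY v hv
      rw [mem_disc] at hv ⊢
      exact hv.trans (by exact_mod_cast hXY)
    have hex : ∀ v : G, ∃ X : ℕ, v ∈ disc (X : ℝ) := fun v => ⟨nm v, mem_disc.2 le_rfl⟩
    have htend := hLs.hasSum.comp (Filter.tendsto_atTop_finset_of_monotone hmono hex)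
    refine le_of_tendsto htend (Filter.Eventually.of_forall fun X => ?_)
    exact (le_abs_self _).trans (hC M h hM1 (hh_abs A e) (hh_zero A e)
      (h2 A ∅ e hAe).1 (h2 A ∅ e hAe).2 σ hσ1.le hσ2 X)
  -- factorization
  set g₁ : Tp → ℝ := fun t => h t.1 ^ 2 * ((nm t.1 : ℝ) ^ 2) ^ (-σ) with hg₁
  have hg₁nn : ∀ t, 0 ≤ g₁ t := fun t => by
    rw [hg₁]
    positivity
  have hg₁s : Summable g₁ := by
    refine Summable.of_nonneg_of_le hg₁nn (fun t => ?_)
      (hsN.comp_injective (i := fun t : Tp => t.1) Subtype.val_injective)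
    rw [hg₁]
    simp only [Function.comp]
    have h5 : (1 : ℝ) ≤ nm t.1 := by exact_mod_cast nm_pos (prm_ne_zero t.2)
    have h6 : ((nm t.1 : ℝ) ^ 2) ^ (-σ) ≤ (nm t.1 : ℝ) ^ (-σ) :=
      Real.rpow_le_rpow_of_nonpos (by linarith) (by nlinarith) (by linarith)
    have h7 : h t.1 ^ 2 ≤ 1 := by
      rw [← sq_abs]
      exact pow_le_one₀ (abs_nonneg _) (hh_abs A e t.1)
    calc h t.1 ^ 2 * ((nm t.1 : ℝ) ^ 2) ^ (-σ) ≤ 1 * (nm t.1 : ℝ) ^ (-σ) :=
          mul_le_mul h7 h6 (by positivity) zero_le_one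
      _ = _ := one_mul _
  have hprods : Summable (fun B : Finset Pr => ∏ p ∈ B, f p) :=
    summable_finsetProd_of_summable_norm hfs
  have hprods' : Summable (fun B : Finset Pr => ‖∏ p ∈ B, f p‖) := hprods.norm
  have hfac : L = (∑' t : Tp, g₁ t) * ∑' B : Finset Pr, ∏ p ∈ B, f p := by
    rw [tsum_mul_tsum_of_summable_norm hg₁s.norm hprods']
    have e1 : L = ∑' v : Tp, h v.1 * (nm v.1 : ℝ) ^ (-σ) := by
      rw [hL]
      symm
      apply tsum_subtype_eq_of_support_subset (s := {v : G | Prm v})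
        (f := fun v : G => h v * (nm v : ℝ) ^ (-σ))
      intro v hv
      by_contra hv'
      apply hv
      have : h v = 0 := by
        rw [hh']
        unfold hh
        exact if_neg hv'
      simp only [this, zero_mul]
    rw [e1, ← (facEquiv h4).tsum_eq]
    refine tsum_congr fun x => ?_
    obtain ⟨t, B⟩ := x
    rw [facEquiv_apply]
    have h5 : h (t.1 ^ 2 * pd B) = h t.1 ^ 2 * ∏ p ∈ B, h p.1 := by
      rw [hh', sq, hh_mul h1 A e (prm_mul t.2 t.2) (prm_pd B), hh_mul h1 A e t.2 t.2, hh_pd h1,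
        sq]
    have h6 : (nm (t.1 ^ 2 * pd B) : ℝ) ^ (-σ) =
        ((nm t.1 : ℝ) ^ 2) ^ (-σ) * ∏ p ∈ B, (gN p : ℝ) ^ (-σ) := by
      have h7 : (nm (t.1 ^ 2 * pd B) : ℝ) = (nm t.1 : ℝ) ^ 2 * ∏ p ∈ B, (gN p : ℝ) := by
        rw [nm_mul, nm_pd, sq, nm_mul]
        unfold NN
        push_cast
        ring
      rw [h7, Real.mul_rpow (by positivity) (by positivity),
        Real.finsetProd_rpow _ _ (fun _ _ => by positivity)]
    rw [h5, h6, hg₁]
    simp only [hf]
    rw [Finset.prod_mul_distrib]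
    ring
  -- the product
  have hlogs : Summable (fun p => Real.log (1 + f p)) :=
    Real.summable_log_one_add_of_summable hfs'
  have hD : ∑' B : Finset Pr, ∏ p ∈ B, f p = Real.exp (∑' p, Real.log (1 + f p)) := by
    rw [Real.rexp_tsum_eq_tprod hfpos hlogs, tprod_one_add hprods]
  have hfirst : 1 ≤ ∑' t : Tp, g₁ t := by
    have h5 := hg₁s.le_tsum (⟨1, prm_one⟩ : Tp) (fun t _ => hg₁nn t)
    refine le_trans ?_ h5
    rw [hg₁]
    simp only
    rw [hh', hh_one, nm_one]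
    norm_num
  have hexp : Real.exp (∑' p, Real.log (1 + f p)) ≤ C * (1 + Real.log M) := by
    refine le_trans ?_ hLle
    rw [hfac, hD]
    exact le_mul_of_one_le_left (Real.exp_pos _).le hfirst
  have hlogD : ∑' p, Real.log (1 + f p) ≤ Real.log (C * (1 + Real.log M)) := by
    rw [← Real.log_exp (∑' p, Real.log (1 + f p))]
    exact Real.log_le_log (Real.exp_pos _) hexp
  -- the logarithm
  have hsq : ∀ p, f p ^ 2 ≤ (nm p.1 : ℝ) ^ (-2 : ℝ) := by
    intro p
    have h5 : 2 ≤ nm p.1 := nm_prime p.2.1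
    have h6 := (hfabs p).trans (rpow_neg_le hσ1.le (n := nm p.1) (by omega))
    have h7 : (0 : ℝ) < nm p.1 := by
      have : 0 < nm p.1 := by omega
      exact_mod_cast this
    rw [← sq_abs]
    calc |f p| ^ 2 ≤ (1 / (nm p.1 : ℝ)) ^ 2 := pow_le_pow_left₀ (abs_nonneg _) h6 2
      _ = (nm p.1 : ℝ) ^ (-2 : ℝ) := by
          rw [Real.rpow_neg h7.le, one_div, inv_pow]
          norm_num
  have hsqs' : Summable (fun p : Pr => (nm p.1 : ℝ) ^ (-2 : ℝ)) :=
    hZs.comp_injective (i := fun p : Pr => p.1) Subtype.val_injective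
  have hsqs : Summable (fun p => f p ^ 2) :=
    Summable.of_nonneg_of_le (fun _ => sq_nonneg _) hsq hsqs'
  have hsqZ : ∑' p, f p ^ 2 ≤ Z := by
    refine (hsqs.tsum_le_tsum hsq hsqs').trans ?_
    rw [hZ]
    exact tsum_comp_le_tsum_of_inj hZs (fun v => Real.rpow_nonneg (Nat.cast_nonneg _) _)
      (i := fun p : Pr => p.1) Subtype.val_injective
  have hmain : ∑' p, f p ≤ ∑' p, Real.log (1 + f p) + 2 * ∑' p, f p ^ 2 := by
    rw [← tsum_mul_left, ← Summable.tsum_add hlogs (hsqs.mul_left 2)]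
    refine Summable.tsum_le_tsum (fun p => ?_) hfs' (hlogs.add (hsqs.mul_left 2))
    have := log_ge (x := f p) (by
      have := (abs_le.1 (hfhalf p)).1
      linarith)
    linarith
  -- conclusion
  have hNNr : (1 : ℝ) ≤ NN gN A := by exact_mod_cast hNN1
  have hlogN : 0 ≤ Real.log (NN gN A) := Real.log_nonneg hNNr
  have hfin : Real.log (C * (1 + Real.log M)) ≤
      Real.log (1 + Real.log (NN gN A)) + Real.log (C * (1 + Real.log 8)) := by
    rw [← Real.log_mul (by positivity) (by positivity)]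
    have hlM : Real.log M = Real.log 8 + Real.log (NN gN A) := by
      rw [hMv]
      push_cast
      rw [Real.log_mul (by norm_num) (by positivity)]
    rw [hlM]
    refine Real.log_le_log (by positivity) ?_
    have h5 : 1 + (Real.log 8 + Real.log (NN gN A)) ≤
        (1 + Real.log (NN gN A)) * (1 + Real.log 8) := by
      nlinarith [mul_nonneg hlogN hlog8]
    calc C * (1 + (Real.log 8 + Real.log (NN gN A)))
        ≤ C * ((1 + Real.log (NN gN A)) * (1 + Real.log 8)) :=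
          mul_le_mul_of_nonneg_left h5 (by linarith)
      _ = _ := by ring
  linarith

end Pool.Agent.Y692.PP
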