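import Pool.Agent.Y692.PP.Base

/-!
# Project PP: the bilinear estimate in dyadic boxes (job PP-BOX)
-/

set_option autoImplicit false

open Finset

namespace Pool.Agent.Y692.PP

open Pool.Agent.Y690.PP

/-- the dyadic box -/
noncomputable def bx (U : ℝ) : Finset (Finset Pr) :=
  (FF gN (2 * U)).filter (fun A => U < (NN gN A : ℝ))

open Classical in
/-- the primary elements of norm at most `T` -/
noncomputable def pv (T : ℝ) : Finset G := (disc T).filter (fun v => Prm v)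

theorem card_bx (h4 : SFAC) {U : ℝ} (hU : 1 ≤ U) : (#(bx U) : ℝ) ≤ 18 * U := by
  have h1 : #(bx U) ≤ #(FF gN (2 * U)) := Finset.card_filter_le _ _
  have h2 := card_FF h4 (x := 2 * U) (by linarith)
  have h3 : (#(bx U) : ℝ) ≤ #(FF gN (2 * U)) := by exact_mod_cast h1
  linarith

theorem mem_pv {T : ℝ} {v : G} : v ∈ pv T ↔ (nm v : ℝ) ≤ T ∧ Prm v := by
  classical
  unfold pv
  rw [mem_filter, mem_disc]

theorem pd_mem_pv (h4 : SFAC) {U T : ℝ} (hT : 2 * U ≤ T) {A : Finset Pr} (hA : A ∈ bx U) :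
    pd A ∈ pv T := by
  rw [mem_pv, nm_pd]
  unfold bx at hA
  rw [mem_filter, mem_FF h4] at hA
  exact ⟨hA.1.trans hT, prm_pd A⟩

/-- enlarge a sum over a box to a sum over all primary elements -/
theorem sum_bx_le (h4 : SFAC) {U T : ℝ} (hT : 2 * U ≤ T) (H : G → ℝ) (hH : ∀ v, 0 ≤ H v) :
    ∑ A ∈ bx U, H (pd A) ≤ ∑ v ∈ pv T, H v := by
  classical
  rw [← Finset.sum_image (f := H) (g := pd) (s := bx U) ((pd_inj h4).injOn)]
  refine Finset.sum_le_sum_of_subset_of_nonneg ?_ fun v _ _ => hH v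
  intro v hv
  rw [mem_image] at hv
  obtain ⟨A, hA, rfl⟩ := hv
  exact pd_mem_pv h4 hT hA

/-- the large sieve, in our notation -/
theorem ls1 (h5 : SBOX1) : ∃ C : ℝ, 1 ≤ C ∧ ∀ (c : Finset Pr → ℝ) (U V : ℝ), 1 ≤ U → U ^ 8 ≤ V →
    ∑ v ∈ pv V, (∑ A ∈ bx U, c A * chi A v) ^ 2 ≤ C * V * ∑ A ∈ bx U, c A ^ 2 := by
  obtain ⟨C, hC⟩ := h5
  refine ⟨max 1 C, le_max_left _ _, fun c U V hU hV => ?_⟩
  refine (hC c U V hU hV).trans ?_
  have hV0 : 0 ≤ V := le_trans (by positivity) hV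
  have h1 : 0 ≤ ∑ A ∈ bx U, c A ^ 2 := Finset.sum_nonneg fun _ _ => sq_nonneg _
  have h2 : C * V ≤ max 1 C * V := mul_le_mul_of_nonneg_right (le_max_right _ _) hV0
  exact mul_le_mul_of_nonneg_right h2 h1

/-- the dual large sieve -/
theorem ls2 {C : ℝ} (hC1 : 1 ≤ C)
    (hC : ∀ (c : Finset Pr → ℝ) (U V : ℝ), 1 ≤ U → U ^ 8 ≤ V →
      ∑ v ∈ pv V, (∑ A ∈ bx U, c A * chi A v) ^ 2 ≤ C * V * ∑ A ∈ bx U, c A ^ 2)
    (β : G → ℝ) {U T : ℝ} (hU : 1 ≤ U) (hT : U ^ 8 ≤ T) :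
    ∑ A ∈ bx U, (∑ v ∈ pv T, β v * chi A v) ^ 2 ≤ C * T * ∑ v ∈ pv T, β v ^ 2 := by
  set F : Finset Pr → ℝ := fun A => ∑ v ∈ pv T, β v * chi A v with hF
  set S := ∑ A ∈ bx U, F A ^ 2 with hS
  have hT0 : 0 ≤ T := le_trans (by positivity) hT
  have hS0 : 0 ≤ S := Finset.sum_nonneg fun _ _ => sq_nonneg _
  have hB0 : 0 ≤ ∑ v ∈ pv T, β v ^ 2 := Finset.sum_nonneg fun _ _ => sq_nonneg _
  have h1 : S = ∑ v ∈ pv T, β v * ∑ A ∈ bx U, F A * chi A v := by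
    rw [hS]
    have h2 : ∀ A, F A ^ 2 = ∑ v ∈ pv T, β v * (F A * chi A v) := by
      intro A
      rw [sq]
      nth_rewrite 2 [hF]
      rw [Finset.mul_sum]
      refine Finset.sum_congr rfl fun v _ => ?_
      ring
    rw [Finset.sum_congr rfl fun A _ => h2 A, Finset.sum_comm]
    refine Finset.sum_congr rfl fun v _ => ?_
    rw [Finset.mul_sum]
  have h2 : S ^ 2 ≤ (∑ v ∈ pv T, β v ^ 2) * (C * T * S) := by
    calc S ^ 2 = (∑ v ∈ pv T, β v * ∑ A ∈ bx U, F A * chi A v) ^ 2 := by rw [← h1]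
      _ ≤ (∑ v ∈ pv T, β v ^ 2) * ∑ v ∈ pv T, (∑ A ∈ bx U, F A * chi A v) ^ 2 :=
        Finset.sum_mul_sq_le_sq_mul_sq _ _ _
      _ ≤ _ := mul_le_mul_of_nonneg_left (hC F U T hU hT) hB0
  rcases hS0.eq_or_lt with h0 | h0
  · show S ≤ _
    rw [← h0]
    positivity
  · show S ≤ _
    have h3 : S * S ≤ (C * T * ∑ v ∈ pv T, β v ^ 2) * S := by nlinarith [h2]
    exact le_of_mul_le_mul_right h3 h0

/-! ### the number of divisors -/

/-- units congruent to one -/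
theorem eq_of_associated (h4 : SFAC) {p q : Pr} (h : Associated p.1 q.1) : p = q := by
  obtain ⟨u, hu⟩ := h
  have hu4 : (u : G) ^ 4 = 1 := by
    have h1 : (u : G).norm = 1 := by
      have h2 := (Zsqrtd.norm_eq_one_iff (x := (u : G))).2 u.isUnit
      have h3 := GaussianInt.norm_nonneg (u : G)
      omega
    rw [Zsqrtd.norm_def] at h1
    have h2 : (u : G).re * (u : G).re + (u : G).im * (u : G).im = 1 := by linarith
    have h3 : (u : G).re * (u : G).re ≤ 1 := by nlinarith [mul_self_nonneg (u : G).im]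
    have h4 : (u : G).im * (u : G).im ≤ 1 := by nlinarith [mul_self_nonneg (u : G).re]
    have h5 : -1 ≤ (u : G).re ∧ (u : G).re ≤ 1 := by constructor <;> nlinarith
    have h6 : -1 ≤ (u : G).im ∧ (u : G).im ≤ 1 := by constructor <;> nlinarith
    generalize (u : G) = w at *
    obtain ⟨a, b⟩ := w
    simp only at h2 h5 h6
    obtain ⟨h5a, h5b⟩ := h5
    obtain ⟨h6a, h6b⟩ := h6
    interval_cases a <;> interval_cases b <;> first | omega | decide
  have h1 : q.1 ^ 4 = p.1 ^ 4 := by rw [← hu, mul_pow, hu4, mul_one]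
  have hp := p.2.2
  have hq := q.2.2
  have h2 : q.1 ^ 2 = p.1 ^ 2 := by
    have := (h4.2 (q.1 ^ 2) (p.1 ^ 2) ∅ ∅ (by rw [sq]; exact prm_mul hq hq)
      (by rw [sq]; exact prm_mul hp hp) (by
        rw [Finset.prod_empty, mul_one, mul_one, ← pow_mul, ← pow_mul]
        exact h1)).1
    exact this
  have h3 := (h4.2 q.1 p.1 ∅ ∅ hq hp (by rw [Finset.prod_empty, mul_one, mul_one]; exact h2)).1
  exact Subtype.ext h3.symm

open Classical in
/-- the primes dividing `v` -/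
noncomputable def dv (v : G) : Finset Pr := (PB gN (nm v)).filter (fun p => p.1 ∣ v)

theorem mem_dv {v : G} (hv : v ≠ 0) {p : Pr} : p ∈ dv v ↔ p.1 ∣ v := by
  classical
  unfold dv
  rw [mem_filter, mem_PB]
  constructor
  · exact fun h => h.2
  · intro h
    refine ⟨?_, h⟩
    exact_mod_cast nm_le_of_dvd hv h

theorem NN_dv_le (h4 : SFAC) {v : G} (hv : v ≠ 0) : NN gN (dv v) ≤ nm v := by
  rw [← nm_pd]
  refine nm_le_of_dvd hv ?_
  unfold pd
  refine Finset.prod_dvd_of_coprime ?_ fun p hp => (mem_dv hv).1 hp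
  intro p _ q _ hpq
  show IsCoprime p.1 q.1
  rw [p.2.1.irreducible.coprime_iff_not_dvd]
  intro h
  exact hpq (eq_of_associated h4 (p.2.1.associated_of_dvd q.2.1 h))

/-- `K ^ ω(v) ≤ C |v| ^ (1 / m)` -/
theorem omega_bound (h4 : SFAC) (K m : ℕ) (hK : 1 ≤ K) (hm : 0 < m) : ∃ C : ℝ, 1 ≤ C ∧
    ∀ v : G, v ≠ 0 → ∀ y : ℝ, 0 ≤ y → (nm v : ℝ) ≤ y ^ m → (K : ℝ) ^ #(dv v) ≤ C * y := by
  classical
  have hK' : (1 : ℝ) ≤ K := by exact_mod_cast hK
  set E : Finset Pr := PB gN ((K : ℝ) ^ m) with hE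
  refine ⟨(K : ℝ) ^ #E, one_le_pow₀ hK', fun v hv y hy hvy => ?_⟩
  have hm0 : (m : ℝ) ≠ 0 := by exact_mod_cast hm.ne'
  have h1 : (K : ℝ) ^ #(dv v) ≤ ∏ p ∈ dv v, ((if p ∈ E then (K : ℝ) else 1) * (gN p : ℝ) ^ (1 / m : ℝ)) := by
    rw [← Finset.prod_const]
    refine Finset.prod_le_prod (fun _ _ => by positivity) fun p _ => ?_
    have h1p : (1 : ℝ) ≤ (gN p : ℝ) ^ (1 / m : ℝ) := by
      apply Real.one_le_rpow
      · have := gN_ge p
        exact_mod_cast (by omega : 1 ≤ gN p)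
      · positivity
    by_cases hp : p ∈ E
    · rw [if_pos hp]
      nlinarith
    · rw [if_neg hp, one_mul]
      rw [hE, mem_PB, not_le] at hp
      have h2 : ((K : ℝ) ^ m) ^ (1 / m : ℝ) ≤ (gN p : ℝ) ^ (1 / m : ℝ) :=
        Real.rpow_le_rpow (by positivity) hp.le (by positivity)
      rw [one_div, Real.pow_rpow_inv_natCast (by positivity) hm.ne'] at h2
      rw [one_div]
      exact h2
  have h2 : ∏ p ∈ dv v, (if p ∈ E then (K : ℝ) else 1) ≤ (K : ℝ) ^ #E := by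
    rw [← Finset.prod_filter, Finset.prod_const]
    refine pow_le_pow_right₀ hK' (Finset.card_le_card ?_)
    intro p hp
    exact (mem_filter.1 hp).2
  have h3 : ∏ p ∈ dv v, (gN p : ℝ) ^ (1 / m : ℝ) ≤ y := by
    rw [Real.finsetProd_rpow _ _ (fun _ _ => by positivity)]
    have h4' : (∏ p ∈ dv v, (gN p : ℝ)) ≤ y ^ m := by
      have h5 := NN_dv_le h4 hv
      have h6 : ((NN gN (dv v) : ℕ) : ℝ) ≤ nm v := by exact_mod_cast h5
      unfold NN at h6
      rw [Nat.cast_prod] at h6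
      exact h6.trans hvy
    calc (∏ p ∈ dv v, (gN p : ℝ)) ^ (1 / m : ℝ) ≤ (y ^ m) ^ (1 / m : ℝ) :=
          Real.rpow_le_rpow (by positivity) h4' (by positivity)
      _ = y := by rw [one_div, Real.pow_rpow_inv_natCast hy hm.ne']
  rw [Finset.prod_mul_distrib] at h1
  calc (K : ℝ) ^ #(dv v) ≤ _ := h1
    _ ≤ (K : ℝ) ^ #E * y := mul_le_mul h2 h3 (by positivity) (by positivity)

/-! ### the two cases -/

theorem case1 (h1 : SMULT) (h4 : SFAC) {C : ℝ} (hC1 : 1 ≤ C)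
    (hC : ∀ (c : Finset Pr → ℝ) (U V : ℝ), 1 ≤ U → U ^ 8 ≤ V →
      ∑ v ∈ pv V, (∑ A ∈ bx U, c A * chi A v) ^ 2 ≤ C * V * ∑ A ∈ bx U, c A ^ 2)
    (a b : Finset Pr → ℝ) (ha : ∀ A, |a A| ≤ 1) (hb : ∀ B, |b B| ≤ 1) {U V : ℝ} (hU : 1 ≤ U)
    (hUV : U ^ 8 ≤ V) :
    (∑ A ∈ bx U, ∑ B ∈ bx V, a A * b B * sy gs A B) ^ 2 ≤ 648 * C * V ^ 2 * U := by
  have hV : 1 ≤ V := le_trans (one_le_pow₀ hU) hUV
  have hsq : ∀ (f : Finset Pr → ℝ) (W : ℝ), 1 ≤ W → (∀ A, |f A| ≤ 1) →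
      ∑ A ∈ bx W, f A ^ 2 ≤ 18 * W := by
    intro f W hW hf
    refine le_trans ?_ (card_bx h4 hW)
    rw [← nsmul_one, ← Finset.sum_const]
    refine Finset.sum_le_sum fun A _ => ?_
    rw [← sq_abs]
    exact pow_le_one₀ (abs_nonneg _) (hf A)
  have e1 : ∑ A ∈ bx U, ∑ B ∈ bx V, a A * b B * sy gs A B =
      ∑ B ∈ bx V, b B * ∑ A ∈ bx U, a A * chi A (pd B) := by
    rw [Finset.sum_comm]
    refine Finset.sum_congr rfl fun B _ => ?_
    rw [Finset.mul_sum]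
    refine Finset.sum_congr rfl fun A _ => ?_
    rw [chi_pd h1]
    ring
  rw [e1]
  have h2 : ∑ B ∈ bx V, (∑ A ∈ bx U, a A * chi A (pd B)) ^ 2 ≤ C * (2 * V) * (18 * U) := by
    refine (sum_bx_le h4 (le_refl (2 * V)) (fun v => (∑ A ∈ bx U, a A * chi A v) ^ 2)
      fun v => sq_nonneg _).trans ?_
    refine (hC a U (2 * V) hU (by linarith)).trans ?_
    exact mul_le_mul_of_nonneg_left (hsq a U hU ha) (by positivity)
  calc (∑ B ∈ bx V, b B * ∑ A ∈ bx U, a A * chi A (pd B)) ^ 2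
      ≤ (∑ B ∈ bx V, b B ^ 2) * ∑ B ∈ bx V, (∑ A ∈ bx U, a A * chi A (pd B)) ^ 2 :=
        Finset.sum_mul_sq_le_sq_mul_sq _ _ _
    _ ≤ (18 * V) * (C * (2 * V) * (18 * U)) :=
        mul_le_mul (hsq b V hV hb) h2 (Finset.sum_nonneg fun _ _ => sq_nonneg _) (by positivity)
    _ = 648 * C * V ^ 2 * U := by ring

/-- the eighth power of a sum over a box -/
theorem eighth (h1 : SMULT) (h4 : SFAC) (b : Finset Pr → ℝ) (hb : ∀ B, |b B| ≤ 1) {V R : ℝ}
    (hV : 1 ≤ V) (hR : ∀ v ∈ pv ((2 * V) ^ 8), (256 : ℝ) ^ #(dv v) ≤ R) :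
    ∃ β : G → ℝ, (∀ A, (∑ B ∈ bx V, b B * chi A (pd B)) ^ 8 =
      ∑ v ∈ pv ((2 * V) ^ 8), β v * chi A v) ∧
      ∑ v ∈ pv ((2 * V) ^ 8), β v ^ 2 ≤ R * (18 * V) ^ 8 := by
  classical
  set Q : Finset (Fin 8 → Finset Pr) := Fintype.piFinset (fun _ : Fin 8 => bx V) with hQ
  set π : (Fin 8 → Finset Pr) → G := fun p => ∏ i, pd (p i) with hπ
  have hmap : ∀ p ∈ Q, π p ∈ pv ((2 * V) ^ 8) := by
    intro p hp
    rw [hQ, Fintype.mem_piFinset] at hp
    rw [mem_pv]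
    refine ⟨?_, prm_prod _ _ fun i _ => prm_pd _⟩
    have h2 : nm (π p) = ∏ i, NN gN (p i) := by
      have h3 := map_prod nmHom (fun i => pd (p i)) univ
      have h5 : ∀ i, nmHom (pd (p i)) = NN gN (p i) := fun i => nm_pd _
      rw [Finset.prod_congr rfl fun i _ => h5 i] at h3
      exact h3
    rw [h2, Nat.cast_prod]
    calc ∏ i, ((NN gN (p i) : ℕ) : ℝ) ≤ ∏ _i : Fin 8, (2 * V) := by
          refine Finset.prod_le_prod (fun _ _ => by positivity) fun i _ => ?_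
          have h6 := hp i
          unfold bx at h6
          rw [mem_filter, mem_FF h4] at h6
          exact h6.1
      _ = (2 * V) ^ 8 := by rw [Finset.prod_const, Finset.card_univ, Fintype.card_fin]
  refine ⟨fun v => ∑ p ∈ Q.filter (fun p => π p = v), ∏ i, b (p i), fun A => ?_, ?_⟩
  · rw [Finset.sum_pow']
    rw [← Finset.sum_fiberwise_of_maps_to hmap]
    refine Finset.sum_congr rfl fun v _ => ?_
    rw [Finset.sum_mul]
    refine Finset.sum_congr rfl fun p hp => ?_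
    rw [Finset.prod_mul_distrib, ← chi_prod h1]
    rw [mem_filter] at hp
    rw [← hp.2]
  · -- the bound
    have hr : ∀ v ∈ pv ((2 * V) ^ 8), (#(Q.filter fun p => π p = v) : ℝ) ≤ R := by
      intro v hv
      refine le_trans ?_ (hR v hv)
      have hv0 : v ≠ 0 := prm_ne_zero (mem_pv.1 hv).2
      have h2 : #(Q.filter fun p => π p = v) ≤
          #(Fintype.piFinset (fun _ : Fin 8 => (dv v).powerset)) := by
        refine Finset.card_le_card fun p hp => ?_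
        rw [mem_filter] at hp
        rw [Fintype.mem_piFinset]
        intro i
        rw [mem_powerset]
        intro q hq
        rw [mem_dv hv0, ← hp.2]
        refine dvd_trans ?_ (Finset.dvd_prod_of_mem (fun i => pd (p i)) (mem_univ i))
        exact Finset.dvd_prod_of_mem (fun p : Pr => p.1) hq
      rw [Fintype.card_piFinset, Finset.prod_const, Finset.card_univ, Fintype.card_fin,
        Finset.card_powerset] at h2
      have h3 : ((2 ^ #(dv v)) ^ 8 : ℕ) = 256 ^ #(dv v) := by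
        rw [← pow_mul, mul_comm, pow_mul]
        norm_num
      rw [h3] at h2
      exact_mod_cast h2
    have hb1 : ∀ v ∈ pv ((2 * V) ^ 8), (∑ p ∈ Q.filter (fun p => π p = v), ∏ i, b (p i)) ^ 2 ≤
        R * (#(Q.filter fun p => π p = v) : ℝ) := by
      intro v hv
      have h2 : |∑ p ∈ Q.filter (fun p => π p = v), ∏ i, b (p i)| ≤
          (#(Q.filter fun p => π p = v) : ℝ) := by
        refine (Finset.abs_sum_le_sum_abs _ _).trans ?_
        rw [← nsmul_one, ← Finset.sum_const]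
        refine Finset.sum_le_sum fun p _ => ?_
        rw [Finset.abs_prod]
        exact Finset.prod_le_one (fun _ _ => abs_nonneg _) fun i _ => hb _
      rw [← sq_abs, sq]
      exact mul_le_mul (h2.trans (hr v hv)) h2 (abs_nonneg _)
        (le_trans (Nat.cast_nonneg _) (hr v hv))
    have hR0 : 0 ≤ R := by
      have h7 : (1 : G) ∈ pv ((2 * V) ^ 8) := by
        rw [mem_pv]
        refine ⟨?_, prm_one⟩
        rw [nm_one, Nat.cast_one]
        exact one_le_pow₀ (by linarith)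
      exact le_trans (Nat.cast_nonneg _) (hr 1 h7)
    calc ∑ v ∈ pv ((2 * V) ^ 8), (∑ p ∈ Q.filter (fun p => π p = v), ∏ i, b (p i)) ^ 2
        ≤ ∑ v ∈ pv ((2 * V) ^ 8), R * (#(Q.filter fun p => π p = v) : ℝ) :=
          Finset.sum_le_sum hb1
      _ = R * (#Q : ℝ) := by
          rw [← Finset.mul_sum, Finset.card_eq_sum_card_fiberwise hmap]
          push_cast
          rfl
      _ ≤ R * (18 * V) ^ 8 := by
          refine mul_le_mul_of_nonneg_left ?_ hR0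
          rw [hQ, Fintype.card_piFinset, Finset.prod_const, Finset.card_univ, Fintype.card_fin]
          push_cast
          exact pow_le_pow_left₀ (Nat.cast_nonneg _) (card_bx h4 hV) 8

theorem case2 (h1 : SMULT) (h4 : SFAC) {C C₂ : ℝ} (hC1 : 1 ≤ C) (hC₂1 : 1 ≤ C₂)
    (hC : ∀ (c : Finset Pr → ℝ) (U V : ℝ), 1 ≤ U → U ^ 8 ≤ V →
      ∑ v ∈ pv V, (∑ A ∈ bx U, c A * chi A v) ^ 2 ≤ C * V * ∑ A ∈ bx U, c A ^ 2)
    (hC₂ : ∀ v : G, v ≠ 0 → ∀ y : ℝ, 0 ≤ y → (nm v : ℝ) ≤ y ^ 128 → (256 : ℝ) ^ #(dv v) ≤ C₂ * y)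
    (a b : Finset Pr → ℝ) (ha : ∀ A, |a A| ≤ 1) (hb : ∀ B, |b B| ≤ 1) {u V : ℝ} (hu : 1 ≤ u)
    (hUV : u ^ 32 ≤ V) (hVU : V ≤ (u ^ 32) ^ 8) :
    |∑ A ∈ bx (u ^ 32), ∑ B ∈ bx V, a A * b B * sy gs A B| ^ 16 ≤
      (18 ^ 23 * 2 ^ 9 * (C * C₂)) * (u ^ 31 * V) ^ 16 := by
  have hU : 1 ≤ u ^ 32 := one_le_pow₀ hu
  have hV : 1 ≤ V := hU.trans hUV
  have hu0 : 0 ≤ u := by linarith
  obtain ⟨β, hβ1, hβ2⟩ := eighth h1 h4 b hb (R := C₂ * (2 * u ^ 16)) hV (fun v hv => by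
    refine hC₂ v (prm_ne_zero (mem_pv.1 hv).2) (2 * u ^ 16) (by positivity) ?_
    refine (mem_pv.1 hv).1.trans ?_
    have h3 : (2 * V) ^ 8 ≤ (2 * (u ^ 32) ^ 8) ^ 8 :=
      pow_le_pow_left₀ (by linarith) (by linarith) 8
    refine h3.trans ?_
    have h5 : (2 * (u ^ 32) ^ 8) ^ 8 = 2 ^ 8 * u ^ 2048 := by ring
    have h6 : (2 * u ^ 16) ^ 128 = 2 ^ 128 * u ^ 2048 := by
      rw [mul_pow, ← pow_mul]
    rw [h5, h6]
    refine mul_le_mul_of_nonneg_right ?_ (by positivity)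
    exact pow_le_pow_right₀ (by norm_num) (by norm_num))
  set F : Finset Pr → ℝ := fun A => ∑ B ∈ bx V, b B * chi A (pd B) with hF
  have e1 : ∑ A ∈ bx (u ^ 32), ∑ B ∈ bx V, a A * b B * sy gs A B =
      ∑ A ∈ bx (u ^ 32), a A * F A := by
    refine Finset.sum_congr rfl fun A _ => ?_
    rw [hF, Finset.mul_sum]
    refine Finset.sum_congr rfl fun B _ => ?_
    rw [chi_pd h1]
    ring
  have h2 : |∑ A ∈ bx (u ^ 32), ∑ B ∈ bx V, a A * b B * sy gs A B| ≤ ∑ A ∈ bx (u ^ 32), |F A| := by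
    rw [e1]
    refine (Finset.abs_sum_le_sum_abs _ _).trans (Finset.sum_le_sum fun A _ => ?_)
    rw [abs_mul]
    exact mul_le_of_le_one_left (abs_nonneg _) (ha A)
  have h3 : (∑ A ∈ bx (u ^ 32), |F A|) ^ 16 ≤
      (#(bx (u ^ 32)) : ℝ) ^ 15 * ∑ A ∈ bx (u ^ 32), |F A| ^ 16 := by
    rcases Nat.eq_zero_or_pos #(bx (u ^ 32)) with h0 | h0
    · rw [Finset.card_eq_zero] at h0
      rw [h0]
      simp
    · have h5 := pow_sum_div_card_le_sum_pow (s := bx (u ^ 32)) (f := fun A => |F A|)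
        (fun _ _ => abs_nonneg _) 15
      rw [div_le_iff₀ (by positivity)] at h5
      rw [mul_comm]
      exact h5
  have h5 : ∑ A ∈ bx (u ^ 32), |F A| ^ 16 ≤
      C * (2 * V) ^ 8 * (C₂ * (2 * u ^ 16) * (18 * V) ^ 8) := by
    have h6 : ∀ A, |F A| ^ 16 = (∑ v ∈ pv ((2 * V) ^ 8), β v * chi A v) ^ 2 := by
      intro A
      rw [← hβ1 A, ← pow_mul]
      exact Even.pow_abs (by decide) _
    rw [Finset.sum_congr rfl fun A _ => h6 A]
    refine (ls2 hC1 hC β hU (pow_le_pow_left₀ (by linarith) (by linarith) 8)).trans ?_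
    exact mul_le_mul_of_nonneg_left hβ2 (by positivity)
  calc |∑ A ∈ bx (u ^ 32), ∑ B ∈ bx V, a A * b B * sy gs A B| ^ 16
      ≤ (∑ A ∈ bx (u ^ 32), |F A|) ^ 16 := pow_le_pow_left₀ (abs_nonneg _) h2 16
    _ ≤ (#(bx (u ^ 32)) : ℝ) ^ 15 * ∑ A ∈ bx (u ^ 32), |F A| ^ 16 := h3
    _ ≤ (18 * u ^ 32) ^ 15 * (C * (2 * V) ^ 8 * (C₂ * (2 * u ^ 16) * (18 * V) ^ 8)) := by
        refine mul_le_mul (pow_le_pow_left₀ (Nat.cast_nonneg _) (card_bx h4 hU) 15) h5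
          (Finset.sum_nonneg fun _ _ => by positivity) (by positivity)
    _ = (18 ^ 23 * 2 ^ 9 * (C * C₂)) * (u ^ 31 * V) ^ 16 := by ring

/-- job PP-BOX -/
theorem t_BOX (h1 : SMULT) (h4 : SFAC) (h5 : SBOX1) : SBOX := by
  obtain ⟨C, hC1, hC⟩ := ls1 h5
  obtain ⟨C₂, hC₂1, hC₂⟩ := omega_bound h4 256 128 (by norm_num) (by norm_num)
  set K : ℝ := 18 ^ 23 * 2 ^ 9 * (C * C₂) with hK
  have hCC : 1 ≤ C * C₂ := by nlinarith
  have hK1 : 1 ≤ K := by
    rw [hK]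
    nlinarith
  refine ⟨K, 1 / 32, by norm_num, fun a b ha hb U V hU hUV => ?_⟩
  obtain ⟨u, hu, rfl⟩ : ∃ u : ℝ, 1 ≤ u ∧ U = u ^ 32 := by
    refine ⟨U ^ (1 / 32 : ℝ), Real.one_le_rpow hU (by norm_num), ?_⟩
    rw [← Real.rpow_natCast, ← Real.rpow_mul (by linarith)]
    norm_num
  have hu0 : 0 ≤ u := by linarith
  have hV : 1 ≤ V := hU.trans hUV
  have hRHS : K * u ^ 32 * V * (u ^ 32) ^ (-(1 / 32) : ℝ) = K * (u ^ 31 * V) := by
    have h2 : (u ^ 32) ^ (-(1 / 32) : ℝ) = u⁻¹ := by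
      rw [← Real.rpow_natCast, ← Real.rpow_mul hu0, ← Real.rpow_neg_one]
      norm_num
    rw [h2]
    field_simp
  rw [hRHS]
  show |∑ A ∈ bx (u ^ 32), ∑ B ∈ bx V, a A * b B * sy gs A B| ≤ K * (u ^ 31 * V)
  rcases le_total ((u ^ 32) ^ 8) V with hcase | hcase
  · have h2 := case1 h1 h4 hC1 hC a b ha hb hU hcase
    refine abs_le_of_sq_le_sq ?_ (by positivity)
    refine h2.trans ?_
    have h3 : 648 * C ≤ K ^ 2 := by
      have h6 : 648 * C ≤ K := by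
        rw [hK]
        nlinarith
      nlinarith
    have h6 : u ^ 32 ≤ u ^ 62 := pow_le_pow_right₀ hu (by norm_num)
    calc 648 * C * V ^ 2 * u ^ 32 ≤ K ^ 2 * V ^ 2 * u ^ 62 := by
          refine mul_le_mul ?_ h6 (by positivity) (by positivity)
          exact mul_le_mul_of_nonneg_right h3 (by positivity)
      _ = (K * (u ^ 31 * V)) ^ 2 := by ring
  · have h2 := case2 h1 h4 hC1 hC₂1 hC (by exact_mod_cast hC₂) a b ha hb hu hUV hcase
    refine le_of_pow_le_pow_left₀ (n := 16) (by norm_num) (by positivity) ?_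
    refine h2.trans ?_
    rw [mul_pow K]
    refine mul_le_mul_of_nonneg_right ?_ (by positivity)
    calc K = K ^ 1 := (pow_one K).symm
      _ ≤ K ^ 16 := pow_le_pow_right₀ hK1 (by norm_num)

end Pool.Agent.Y692.PP
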