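import Pool.Agent.Y690.PP.Stm

/-!
# Project PP: basic facts on Gaussian integers, discs and sets of primes
-/

set_option autoImplicit false

open Finset

namespace Pool.Agent.Y692.PP

open Pool.Agent.Y690.PP

/-! ### norms -/

theorem nm_mul (a b : G) : nm (a * b) = nm a * nm b := by
  unfold nm
  rw [Zsqrtd.norm_mul, Int.natAbs_mul]

theorem nm_one : nm (1 : G) = 1 := by
  unfold nm
  rw [Zsqrtd.norm_one]
  rfl

/-- the norm as a monoid homomorphism -/
def nmHom : G →* ℕ where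
  toFun := nm
  map_one' := nm_one
  map_mul' := nm_mul

theorem nm_int (a : G) : (nm a : ℤ) = a.re * a.re + a.im * a.im := by
  unfold nm
  have h0 : a.norm = a.re * a.re + a.im * a.im := by
    rw [Zsqrtd.norm_def]
    ring
  rw [h0]
  exact Int.natAbs_of_nonneg (by nlinarith [mul_self_nonneg a.re, mul_self_nonneg a.im])

theorem nm_real (a : G) : (nm a : ℝ) = (a.re : ℝ) * a.re + (a.im : ℝ) * a.im := by
  have h := nm_int a
  exact_mod_cast h

theorem nm_eq_zero {a : G} (h : nm a = 0) : a = 0 := by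
  have h1 := nm_int a
  rw [h, Nat.cast_zero] at h1
  have h2 : a.re = 0 := by
    have : a.re * a.re ≤ 0 := by linarith [mul_self_nonneg a.im]
    exact mul_self_eq_zero.1 (le_antisymm this (mul_self_nonneg a.re))
  have h3 : a.im = 0 := by
    have : a.im * a.im ≤ 0 := by linarith [mul_self_nonneg a.re]
    exact mul_self_eq_zero.1 (le_antisymm this (mul_self_nonneg a.im))
  exact Zsqrtd.ext h2 h3

theorem nm_pos {a : G} (h : a ≠ 0) : 1 ≤ nm a :=
  Nat.one_le_iff_ne_zero.2 fun h' => h (nm_eq_zero h')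

theorem nm_le_of_dvd {a b : G} (hb : b ≠ 0) (h : a ∣ b) : nm a ≤ nm b := by
  obtain ⟨c, rfl⟩ := h
  have hc : c ≠ 0 := fun h => hb (by rw [h, mul_zero])
  rw [nm_mul]
  exact Nat.le_mul_of_pos_right _ (nm_pos hc)

/-! ### primary elements -/

theorem prm_one : Prm (1 : G) := by
  unfold Prm
  rw [sub_self]
  exact dvd_zero _

theorem prm_mul {a b : G} (ha : Prm a) (hb : Prm b) : Prm (a * b) := by
  unfold Prm at *
  have h : a * b - 1 = a * (b - 1) + (a - 1) := by ring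
  rw [h]
  exact dvd_add (dvd_mul_of_dvd_right hb _) ha

theorem prm_ne_zero {a : G} (h : Prm a) : a ≠ 0 := by
  rintro rfl
  unfold Prm at h
  have h1 : (⟨2, 2⟩ : G) ∣ 1 := by
    have h2 := (dvd_neg (a := (⟨2, 2⟩ : G)) (b := 0 - 1)).2 h
    simpa using h2
  have h3 := nm_le_of_dvd one_ne_zero h1
  rw [nm_one] at h3
  have h4 : nm (⟨2, 2⟩ : G) = 8 := by
    have := nm_int (⟨2, 2⟩ : G)
    norm_num at this
    exact_mod_cast this
  omega

theorem prm_prod {ι : Type} (s : Finset ι) (f : ι → G) (h : ∀ i ∈ s, Prm (f i)) :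
    Prm (∏ i ∈ s, f i) :=
  Finset.prod_induction f Prm (fun _ _ => prm_mul) prm_one h

/-- the product of a set of primes -/
noncomputable def pd (A : Finset Pr) : G := ∏ p ∈ A, p.1

theorem prm_pd (A : Finset Pr) : Prm (pd A) := prm_prod A _ fun p _ => p.2.2

theorem nm_pd (A : Finset Pr) : nm (pd A) = NN gN A := by
  have h := map_prod nmHom (fun p : Pr => p.1) A
  exact h

theorem pd_inj (h4 : SFAC) : Function.Injective pd := by
  intro A A' h
  have h1 := h4.2 1 1 A A' prm_one prm_one (by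
    rw [one_pow, one_mul, one_mul]
    exact h)
  exact h1.2

theorem nm_prime {p : G} (hp : Prime p) : 2 ≤ nm p := by
  have h1 := nm_pos hp.ne_zero
  rcases Nat.lt_or_ge 1 (nm p) with h | h
  · exact h
  · exfalso
    apply hp.not_isUnit
    rw [← Zsqrtd.norm_eq_one_iff]
    unfold nm at h1 h
    omega

theorem gN_ge (p : Pr) : 2 ≤ gN p := nm_prime p.2.1

theorem NN_pos (A : Finset Pr) : 1 ≤ NN gN A :=
  Finset.one_le_prod' fun p _ => le_trans (by norm_num) (gN_ge p)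

/-! ### discs -/

theorem disc_aux {x : ℝ} {v : G} (h : (nm v : ℝ) ≤ x) :
    v ∈ ((Icc (-(⌊√x⌋₊ : ℤ)) (⌊√x⌋₊ : ℤ)) ×ˢ (Icc (-(⌊√x⌋₊ : ℤ)) (⌊√x⌋₊ : ℤ))).image
      (fun z : ℤ × ℤ => (⟨z.1, z.2⟩ : G)) := by
  have key : ∀ a b : ℤ, (a : ℝ) * a + (b : ℝ) * b ≤ x → a ∈ Icc (-(⌊√x⌋₊ : ℤ)) (⌊√x⌋₊ : ℤ) := by
    intro a b hab
    have h1 : ((a.natAbs : ℕ) : ℝ) ≤ √x := by
      apply Real.le_sqrt_of_sq_le
      have h2 : ((a.natAbs : ℕ) : ℝ) ^ 2 = (a : ℝ) * a := by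
        have h3 : ((a.natAbs : ℕ) : ℤ) ^ 2 = a * a := by
          rw [Int.natAbs_sq, sq]
        have h5 : (((a.natAbs : ℕ) : ℤ) : ℝ) ^ 2 = (a : ℝ) * a := by exact_mod_cast h3
        rwa [Int.cast_natCast] at h5
      rw [h2]
      nlinarith [mul_self_nonneg (b : ℝ)]
    have h2 : a.natAbs ≤ ⌊√x⌋₊ := Nat.le_floor h1
    rw [mem_Icc]
    omega
  rw [nm_real] at h
  rw [mem_image]
  refine ⟨(v.re, v.im), ?_, rfl⟩
  rw [mem_product]
  exact ⟨key v.re v.im h, key v.im v.re (by linarith)⟩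

theorem disc_finite (x : ℝ) : {v : G | (nm v : ℝ) ≤ x}.Finite :=
  Set.Finite.subset (Finset.finite_toSet _) fun _ hv => disc_aux hv

theorem mem_disc {x : ℝ} {v : G} : v ∈ disc x ↔ (nm v : ℝ) ≤ x := by
  unfold disc
  rw [dif_pos (disc_finite x), Set.Finite.mem_toFinset]
  rfl

theorem card_disc {x : ℝ} (hx : 1 ≤ x) : (#(disc x) : ℝ) ≤ 9 * x := by
  have hx0 : 0 ≤ x := by linarith
  have hs : 1 ≤ √x := by
    rw [Real.one_le_sqrt]
    exact hx
  have h1 : #(disc x) ≤ (2 * ⌊√x⌋₊ + 1) * (2 * ⌊√x⌋₊ + 1) := by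
    refine le_trans (Finset.card_le_card (fun v hv => disc_aux (mem_disc.1 hv))) ?_
    refine le_trans Finset.card_image_le ?_
    rw [Finset.card_product, Int.card_Icc]
    apply le_of_eq
    congr 1 <;> omega
  have h2 : (⌊√x⌋₊ : ℝ) ≤ √x := Nat.floor_le (Real.sqrt_nonneg x)
  have h3 : (2 * (⌊√x⌋₊ : ℝ) + 1) ≤ 3 * √x := by linarith
  have h4 : (0 : ℝ) ≤ 2 * (⌊√x⌋₊ : ℝ) + 1 := by positivity
  calc (#(disc x) : ℝ) ≤ (((2 * ⌊√x⌋₊ + 1) * (2 * ⌊√x⌋₊ + 1) : ℕ) : ℝ) := by exact_mod_cast h1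
    _ = (2 * (⌊√x⌋₊ : ℝ) + 1) * (2 * (⌊√x⌋₊ : ℝ) + 1) := by push_cast; ring
    _ ≤ (3 * √x) * (3 * √x) := mul_le_mul h3 h3 h4 (by positivity)
    _ = 9 * x := by nlinarith [Real.mul_self_sqrt hx0]

/-! ### finite sets of primes -/

theorem FF_finite (h4 : SFAC) (x : ℝ) : {A : Finset Pr | (NN gN A : ℝ) ≤ x}.Finite := by
  refine Set.Finite.of_finite_image (f := pd) ?_ ((pd_inj h4).injOn)
  refine (disc_finite x).subset ?_
  rintro _ ⟨A, hA, rfl⟩
  show (nm (pd A) : ℝ) ≤ x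
  rw [nm_pd]
  exact hA

theorem mem_FF (h4 : SFAC) {x : ℝ} {A : Finset Pr} : A ∈ FF gN x ↔ (NN gN A : ℝ) ≤ x := by
  unfold FF
  rw [dif_pos (FF_finite h4 x), Set.Finite.mem_toFinset]
  rfl

theorem card_FF (h4 : SFAC) {x : ℝ} (hx : 1 ≤ x) : (#(FF gN x) : ℝ) ≤ 9 * x := by
  refine le_trans ?_ (card_disc hx)
  have h1 : #(FF gN x) ≤ #(disc x) := by
    refine Finset.card_le_card_of_injOn pd (fun A hA => ?_) ((pd_inj h4).injOn)
    rw [Finset.mem_coe, mem_disc, nm_pd]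
    exact (mem_FF h4).1 hA
  exact_mod_cast h1

theorem PB_finite (x : ℝ) : {p : Pr | (gN p : ℝ) ≤ x}.Finite := by
  refine Set.Finite.of_finite_image (f := fun p : Pr => p.1) ?_ (Subtype.val_injective.injOn)
  refine (disc_finite x).subset ?_
  rintro _ ⟨p, hp, rfl⟩
  exact hp

theorem mem_PB {x : ℝ} {p : Pr} : p ∈ PB gN x ↔ (gN p : ℝ) ≤ x := by
  unfold PB
  rw [dif_pos (PB_finite x), Set.Finite.mem_toFinset]
  rfl

/-! ### characters -/

/-- the product of the characters of `A` -/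
noncomputable def chi (A : Finset Pr) (v : G) : ℝ := ∏ p ∈ A, (qs p.1 v : ℝ)

theorem qs_one {p : G} (hp : Prime p) : qs p 1 = 1 := by
  unfold qs
  rw [if_neg (fun h => hp.not_isUnit (isUnit_of_dvd_one h)), if_pos ⟨1, by simp⟩]

theorem qs_abs (p v : G) : |(qs p v : ℝ)| ≤ 1 := by
  unfold qs
  split_ifs <;> simp

theorem chi_one (A : Finset Pr) : chi A 1 = 1 := by
  unfold chi
  refine Finset.prod_eq_one fun p _ => ?_
  rw [qs_one p.2.1, Int.cast_one]

theorem chi_mul (h1 : SMULT) (A : Finset Pr) (v w : G) : chi A (v * w) = chi A v * chi A w := by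
  unfold chi
  rw [← Finset.prod_mul_distrib]
  refine Finset.prod_congr rfl fun p _ => ?_
  rw [h1.1 p.1 p.2.1 p.2.2 v w, Int.cast_mul]

theorem chi_abs (A : Finset Pr) (v : G) : |chi A v| ≤ 1 := by
  unfold chi
  rw [Finset.abs_prod]
  exact Finset.prod_le_one (fun p _ => abs_nonneg _) fun p _ => qs_abs _ _

/-- the same as a monoid homomorphism -/
noncomputable def chiHom (h1 : SMULT) (A : Finset Pr) : G →* ℝ where
  toFun := chi A
  map_one' := chi_one A
  map_mul' := chi_mul h1 A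

theorem chi_prod (h1 : SMULT) (A : Finset Pr) {ι : Type} (s : Finset ι) (f : ι → G) :
    chi A (∏ i ∈ s, f i) = ∏ i ∈ s, chi A (f i) :=
  map_prod (chiHom h1 A) f s

theorem chi_pd (h1 : SMULT) (A B : Finset Pr) : chi A (pd B) = sy gs A B := by
  unfold pd
  rw [chi_prod h1]
  unfold chi sy
  rw [Finset.prod_comm]
  rfl

end Pool.Agent.Y692.PP
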