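import Pool.Agent.Y692.PP.Base

/-!
# Project PP: Abel summation over discs, the bound of `L(σ)` (job PP-A3, part 1)
-/

set_option autoImplicit false

open Finset

namespace Pool.Agent.Y692.PP

open Pool.Agent.Y690.PP

/-- sums over discs -/
noncomputable def Td (h : G → ℝ) (n : ℕ) : ℝ := ∑ v ∈ disc (n : ℝ), h v

theorem Td_zero (h : G → ℝ) (h0 : h 0 = 0) : Td h 0 = 0 := by
  unfold Td
  refine Finset.sum_eq_zero fun v hv => ?_
  rw [mem_disc] at hv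
  have h1 : nm v = 0 := by
    have h2 : (nm v : ℝ) ≤ 0 := by simpa using hv
    have h3 : nm v ≤ 0 := by exact_mod_cast h2
    omega
  rw [nm_eq_zero h1, h0]

theorem Td_le (h : G → ℝ) (h1 : ∀ v, |h v| ≤ 1) {n : ℕ} (hn : 1 ≤ n) : |Td h n| ≤ 9 * n := by
  have h2 : (1 : ℝ) ≤ n := by exact_mod_cast hn
  refine le_trans ?_ (card_disc h2)
  unfold Td
  refine (Finset.abs_sum_le_sum_abs _ _).trans ?_
  calc ∑ v ∈ disc (n : ℝ), |h v| ≤ ∑ _v ∈ disc (n : ℝ), (1 : ℝ) :=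
        Finset.sum_le_sum fun v _ => h1 v
    _ = (#(disc (n : ℝ)) : ℝ) := by rw [Finset.sum_const, nsmul_one]

theorem sum_disc_succ (g : G → ℝ) (X : ℕ) : ∑ v ∈ disc ((X + 1 : ℕ) : ℝ), g v =
    ∑ v ∈ disc (X : ℝ), g v + ∑ v ∈ (disc ((X + 1 : ℕ) : ℝ)).filter (fun v => ¬ nm v ≤ X), g v := by
  rw [← Finset.sum_filter_add_sum_filter_not (disc ((X + 1 : ℕ) : ℝ)) (fun v => nm v ≤ X)]
  congr 1
  refine Finset.sum_congr ?_ fun _ _ => rfl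
  ext v
  rw [mem_filter, mem_disc, mem_disc]
  constructor
  · intro h
    exact_mod_cast h.2
  · intro h
    have h1 : nm v ≤ X := by exact_mod_cast h
    refine ⟨?_, h1⟩
    have h2 : nm v ≤ X + 1 := by omega
    exact_mod_cast h2

theorem abel (h : G → ℝ) (h0 : h 0 = 0) (σ : ℝ) (X : ℕ) :
    ∑ v ∈ disc (X : ℝ), h v * (nm v : ℝ) ^ (-σ) = (X : ℝ) ^ (-σ) * Td h X +
      ∑ n ∈ range X, ((n : ℝ) ^ (-σ) - ((n + 1 : ℕ) : ℝ) ^ (-σ)) * Td h n := by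
  induction X with
  | zero =>
    rw [Finset.sum_range_zero, Td_zero h h0, mul_zero, add_zero]
    refine Finset.sum_eq_zero fun v hv => ?_
    rw [mem_disc] at hv
    have h1 : nm v = 0 := by
      have h2 : (nm v : ℝ) ≤ 0 := by simpa using hv
      have h3 : nm v ≤ 0 := by exact_mod_cast h2
      omega
    rw [nm_eq_zero h1, h0, zero_mul]
  | succ X ih =>
    have h1 := sum_disc_succ (fun v => h v * (nm v : ℝ) ^ (-σ)) X
    have h2 := sum_disc_succ h X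
    have h3 : ∑ v ∈ (disc ((X + 1 : ℕ) : ℝ)).filter (fun v => ¬ nm v ≤ X), h v * (nm v : ℝ) ^ (-σ) =
        (∑ v ∈ (disc ((X + 1 : ℕ) : ℝ)).filter (fun v => ¬ nm v ≤ X), h v) *
          ((X + 1 : ℕ) : ℝ) ^ (-σ) := by
      rw [Finset.sum_mul]
      refine Finset.sum_congr rfl fun v hv => ?_
      rw [mem_filter, mem_disc] at hv
      have h4 : nm v ≤ X + 1 := by exact_mod_cast hv.1
      have h5 : nm v = X + 1 := by omega
      rw [h5]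
    have h4 : Td h (X + 1) = Td h X +
        ∑ v ∈ (disc ((X + 1 : ℕ) : ℝ)).filter (fun v => ¬ nm v ≤ X), h v := h2
    rw [h1, ih, h3, Finset.sum_range_succ, h4]
    ring

theorem an_nonneg {σ : ℝ} (hσ : 0 ≤ σ) {n : ℕ} (hn : 1 ≤ n) :
    0 ≤ (n : ℝ) ^ (-σ) - ((n + 1 : ℕ) : ℝ) ^ (-σ) := by
  have hn0 : (0 : ℝ) < n := by exact_mod_cast hn
  rw [sub_nonneg]
  refine Real.rpow_le_rpow_of_nonpos hn0 ?_ (by linarith)
  push_cast
  linarith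

theorem an_le {σ : ℝ} (hσ1 : 1 ≤ σ) (hσ2 : σ ≤ 2) {n : ℕ} (hn : 1 ≤ n) :
    (n : ℝ) ^ (-σ) - ((n + 1 : ℕ) : ℝ) ^ (-σ) ≤ 2 * (n : ℝ) ^ (-σ) / n := by
  have hn0 : (0 : ℝ) < n := by exact_mod_cast hn
  have hn1 : (0 : ℝ) < ((n + 1 : ℕ) : ℝ) := by positivity
  have h1 := one_add_mul_self_le_rpow_one_add (s := -(1 / ((n + 1 : ℕ) : ℝ)))
    (by
      rw [neg_le_neg_iff, div_le_one hn1]
      push_cast
      linarith) hσ1
  have h2 : 1 + -(1 / ((n + 1 : ℕ) : ℝ)) = (n : ℝ) / ((n + 1 : ℕ) : ℝ) := by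
    field_simp
    push_cast
    ring
  rw [h2, Real.div_rpow hn0.le hn1.le] at h1
  have hpos : 0 < (n : ℝ) ^ (-σ) := Real.rpow_pos_of_pos hn0 _
  have h3 : ((n + 1 : ℕ) : ℝ) ^ (-σ) = (n : ℝ) ^ (-σ) * ((n : ℝ) ^ σ / ((n + 1 : ℕ) : ℝ) ^ σ) := by
    rw [Real.rpow_neg hn0.le, Real.rpow_neg hn1.le]
    have : (n : ℝ) ^ σ ≠ 0 := (Real.rpow_pos_of_pos hn0 _).ne'
    field_simp
  rw [h3]
  have h4 : (n : ℝ) ^ (-σ) - (n : ℝ) ^ (-σ) * ((n : ℝ) ^ σ / ((n + 1 : ℕ) : ℝ) ^ σ) ≤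
      (n : ℝ) ^ (-σ) * (σ * (1 / ((n + 1 : ℕ) : ℝ))) := by
    nlinarith
  refine h4.trans ?_
  have h5 : 2 * (n : ℝ) ^ (-σ) / n = (n : ℝ) ^ (-σ) * (2 * (1 / n)) := by ring
  rw [h5]
  refine mul_le_mul_of_nonneg_left ?_ hpos.le
  refine mul_le_mul hσ2 ?_ (by positivity) (by norm_num)
  exact one_div_le_one_div_of_le hn0 (by push_cast; linarith)

/-- `n ^ (-5/4)` is a difference -/
theorem quarter {m : ℝ} (hm : 0 < m) :
    (m + 1) ^ (-(5 / 4) : ℝ) ≤ 4 * (m ^ (-(1 / 4) : ℝ) - (m + 1) ^ (-(1 / 4) : ℝ)) := by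
  have hy : 0 < m + 1 := by linarith
  have h1 := rpow_one_add_le_one_add_mul_self (s := -(1 / (m + 1))) (p := 1 / 4)
    (by
      rw [neg_le_neg_iff, div_le_one hy]
      linarith) (by norm_num) (by norm_num)
  have h2 : 1 + -(1 / (m + 1)) = m / (m + 1) := by
    field_simp
    ring
  rw [h2, Real.div_rpow hm.le hy.le] at h1
  set a := m ^ (1 / 4 : ℝ) with ha
  set b := (m + 1) ^ (1 / 4 : ℝ) with hb
  have ha0 : 0 < a := Real.rpow_pos_of_pos hm _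
  have hb0 : 0 < b := Real.rpow_pos_of_pos hy _
  have e1 : m ^ (-(1 / 4) : ℝ) = a⁻¹ := Real.rpow_neg hm.le _
  have e2 : (m + 1) ^ (-(1 / 4) : ℝ) = b⁻¹ := Real.rpow_neg hy.le _
  have e3 : (m + 1) ^ (-(5 / 4) : ℝ) = (m + 1)⁻¹ * b⁻¹ := by
    rw [← e2, ← Real.rpow_neg_one, ← Real.rpow_add hy]
    norm_num
  rw [e1, e2, e3]
  set s := (m + 1)⁻¹ with hs
  have hs0 : 0 < s := inv_pos.2 hy
  have hs1 : s < 1 := by
    rw [hs]
    exact inv_lt_one_of_one_lt₀ (by linarith)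
  have h3 : a / b ≤ 1 - s / 4 := by
    have : 1 + 1 / 4 * -(1 / (m + 1)) = 1 - s / 4 := by
      rw [hs]
      field_simp
      ring
    linarith
  -- `b / a ≥ 1 + s / 4`
  have h4 : 1 + s / 4 ≤ b / a := by
    have h5 : (1 + s / 4) * (a / b) ≤ 1 := by
      have h6 : (1 + s / 4) * (a / b) ≤ (1 + s / 4) * (1 - s / 4) :=
        mul_le_mul_of_nonneg_left h3 (by positivity)
      nlinarith
    rw [← inv_div a b, ← one_div, le_div_iff₀ (by positivity)]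
    exact h5
  have h7 : a⁻¹ = b / a * b⁻¹ := by
    field_simp
  rw [h7]
  have h8 : 0 < b⁻¹ := inv_pos.2 hb0
  nlinarith

theorem rpow_neg_le {σ : ℝ} (hσ : 1 ≤ σ) {n : ℕ} (hn : 1 ≤ n) :
    (n : ℝ) ^ (-σ) ≤ 1 / n := by
  have h1 : (1 : ℝ) ≤ n := by exact_mod_cast hn
  rw [one_div, ← Real.rpow_neg_one]
  exact Real.rpow_le_rpow_of_exponent_le h1 (by linarith)

theorem abs_sum_le {h : G → ℝ} (h0 : h 0 = 0) (h1 : ∀ v, |h v| ≤ 1) {σ : ℝ} (hσ1 : 1 ≤ σ)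
    (hσ2 : σ ≤ 2) (X : ℕ) : |∑ v ∈ disc (X : ℝ), h v * (nm v : ℝ) ^ (-σ)| ≤
      9 + ∑ n ∈ range X, 2 * (n : ℝ) ^ (-σ) / n * |Td h n| := by
  rw [abel h h0]
  refine (abs_add_le _ _).trans (add_le_add ?_ ?_)
  · rcases Nat.eq_zero_or_pos X with rfl | hX
    · rw [Td_zero h h0]
      norm_num
    · rw [abs_mul, abs_of_nonneg (Real.rpow_nonneg (Nat.cast_nonneg _) _)]
      have hX0 : (0 : ℝ) < X := by exact_mod_cast hX
      calc (X : ℝ) ^ (-σ) * |Td h X| ≤ 1 / X * (9 * X) :=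
            mul_le_mul (rpow_neg_le hσ1 hX) (Td_le h h1 hX) (abs_nonneg _) (by positivity)
        _ = 9 := by field_simp
  · refine (Finset.abs_sum_le_sum_abs _ _).trans (Finset.sum_le_sum fun n _ => ?_)
    rcases Nat.eq_zero_or_pos n with rfl | hn
    · rw [Td_zero h h0]
      norm_num
    · rw [abs_mul, abs_of_nonneg (an_nonneg (by linarith) hn)]
      exact mul_le_mul_of_nonneg_right (an_le hσ1 hσ2 hn) (abs_nonneg _)

/-- convergence of the zeta function -/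
theorem summable_nm {σ : ℝ} (hσ1 : 1 < σ) (hσ2 : σ ≤ 2) :
    Summable (fun v : G => (nm v : ℝ) ^ (-σ)) := by
  classical
  have hs := Real.summable_nat_rpow (p := -σ)
  have hsum : Summable (fun n : ℕ => (n : ℝ) ^ (-σ)) := hs.2 (by linarith)
  refine summable_of_sum_le (c := 9 + 18 * ∑' n : ℕ, (n : ℝ) ^ (-σ))
    (fun v => Real.rpow_nonneg (Nat.cast_nonneg _) _) fun u => ?_
  set h : G → ℝ := fun v => if v = 0 then 0 else 1 with hh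
  have h0 : h 0 = 0 := by rw [hh]; simp
  have h1 : ∀ v, |h v| ≤ 1 := by
    intro v
    rw [hh]
    simp only
    split_ifs <;> simp
  have e1 : ∀ v : G, (nm v : ℝ) ^ (-σ) = h v * (nm v : ℝ) ^ (-σ) := by
    intro v
    rw [hh]
    simp only
    split_ifs with hv
    · rw [hv]
      have : nm (0 : G) = 0 := rfl
      rw [this, Nat.cast_zero, Real.zero_rpow (by linarith), mul_zero]
    · rw [one_mul]
  obtain ⟨X, hX⟩ : ∃ X : ℕ, ∀ v ∈ u, nm v ≤ X := ⟨u.sup nm, fun v hv => Finset.le_sup hv⟩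
  have h2 : ∑ v ∈ u, (nm v : ℝ) ^ (-σ) ≤ ∑ v ∈ disc (X : ℝ), (nm v : ℝ) ^ (-σ) := by
    refine Finset.sum_le_sum_of_subset_of_nonneg (fun v hv => ?_)
      fun _ _ _ => Real.rpow_nonneg (Nat.cast_nonneg _) _
    rw [mem_disc]
    exact_mod_cast hX v hv
  refine h2.trans ?_
  rw [Finset.sum_congr rfl fun v _ => e1 v]
  refine (le_abs_self _).trans ((abs_sum_le h0 h1 hσ1.le hσ2 X).trans ?_)
  refine add_le_add le_rfl ?_
  rw [← tsum_mul_left]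
  refine le_trans ?_ (Summable.sum_le_tsum (range X) (fun n _ => by positivity)
    (hsum.mul_left 18))
  refine Finset.sum_le_sum fun n _ => ?_
  rcases Nat.eq_zero_or_pos n with rfl | hn
  · rw [Td_zero h h0]
    have : (0 : ℝ) ≤ 18 * ((0 : ℕ) : ℝ) ^ (-σ) := by positivity
    simpa using this
  · have hn0 : (0 : ℝ) < n := by exact_mod_cast hn
    calc 2 * (n : ℝ) ^ (-σ) / n * |Td h n| ≤ 2 * (n : ℝ) ^ (-σ) / n * (9 * n) :=
          mul_le_mul_of_nonneg_left (Td_le h h1 hn) (by positivity)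
      _ = 18 * (n : ℝ) ^ (-σ) := by
          field_simp
          ring

/-- the bound of the partial sums of `L(σ)` -/
theorem partial_le (h3 : SDISC) : ∃ C : ℝ, 1 ≤ C ∧ ∀ (M : ℕ) (h : G → ℝ), 1 ≤ M → (∀ v, |h v| ≤ 1) →
    h 0 = 0 → (∀ v w : G, (M : G) ∣ v - w → h v = h w) →
    (∑ x ∈ range M, ∑ y ∈ range M, h ⟨(x : ℤ), (y : ℤ)⟩ = 0) → ∀ σ : ℝ, 1 ≤ σ → σ ≤ 2 →
      ∀ X : ℕ, |∑ v ∈ disc (X : ℝ), h v * (nm v : ℝ) ^ (-σ)| ≤ C * (1 + Real.log M) := by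
  obtain ⟨C₀, hC₀⟩ := h3
  set C₁ : ℝ := max C₀ 0 with hC₁
  have hC₁0 : 0 ≤ C₁ := le_max_right _ _
  refine ⟨27 + 36 + 8 * C₁, by linarith, fun M h hM h1 h0 hper hmean σ hσ1 hσ2 X => ?_⟩
  have hM1 : (1 : ℝ) ≤ M := by exact_mod_cast hM
  have hM0 : (0 : ℝ) < M := by linarith
  have hlog : 0 ≤ Real.log M := Real.log_nonneg hM1
  refine (abs_sum_le h0 h1 hσ1 hσ2 X).trans ?_
  -- the two bounds for a term
  have hb1 : ∀ n : ℕ, 1 ≤ n → 2 * (n : ℝ) ^ (-σ) / n * |Td h n| ≤ 18 * (n : ℝ)⁻¹ := by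
    intro n hn
    have hn0 : (0 : ℝ) < n := by exact_mod_cast hn
    calc 2 * (n : ℝ) ^ (-σ) / n * |Td h n| ≤ 2 * (1 / n) / n * (9 * n) := by
          refine mul_le_mul ?_ (Td_le h h1 hn) (abs_nonneg _) (by positivity)
          have := rpow_neg_le hσ1 hn
          gcongr
      _ = 18 * (n : ℝ)⁻¹ := by
          field_simp
          ring
  have hb2 : ∀ n : ℕ, 1 ≤ n → 2 * (n : ℝ) ^ (-σ) / n * |Td h n| ≤
      2 * C₁ * (M : ℝ) ^ (1 / 2 : ℝ) * (n : ℝ) ^ (-(5 / 4) : ℝ) := by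
    intro n hn
    have hn0 : (0 : ℝ) < n := by exact_mod_cast hn
    have h2 : |Td h n| ≤ C₁ * (M : ℝ) ^ (1 / 2 : ℝ) * (n : ℝ) ^ (3 / 4 : ℝ) := by
      refine (hC₀ M h hM h1 hper hmean n (by exact_mod_cast hn)).trans ?_
      have : C₀ ≤ C₁ := le_max_left _ _
      gcongr
    calc 2 * (n : ℝ) ^ (-σ) / n * |Td h n| ≤
          2 * (1 / n) / n * (C₁ * (M : ℝ) ^ (1 / 2 : ℝ) * (n : ℝ) ^ (3 / 4 : ℝ)) := by
          refine mul_le_mul ?_ h2 (abs_nonneg _) (by positivity)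
          have := rpow_neg_le hσ1 hn
          gcongr
      _ = 2 * C₁ * (M : ℝ) ^ (1 / 2 : ℝ) * ((n : ℝ) ^ (-2 : ℝ) * (n : ℝ) ^ (3 / 4 : ℝ)) := by
          have : (n : ℝ) ^ (-2 : ℝ) = 1 / n / n := by
            rw [Real.rpow_neg hn0.le]
            norm_num
            field_simp
          rw [this]
          ring
      _ = 2 * C₁ * (M : ℝ) ^ (1 / 2 : ℝ) * (n : ℝ) ^ (-(5 / 4) : ℝ) := by
          rw [← Real.rpow_add hn0]
          norm_num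
  -- splitting
  have hnn : ∀ n : ℕ, 0 ≤ 2 * (n : ℝ) ^ (-σ) / n * |Td h n| := fun n => by positivity
  have hsplit : ∑ n ∈ range X, 2 * (n : ℝ) ^ (-σ) / n * |Td h n| ≤
      ∑ n ∈ range (M ^ 2 + 1 + X), 2 * (n : ℝ) ^ (-σ) / n * |Td h n| :=
    Finset.sum_le_sum_of_subset_of_nonneg (Finset.range_subset_range.2 (by omega)) fun n _ _ => hnn n
  rw [Finset.sum_range_add] at hsplit
  have hp1 : ∑ n ∈ range (M ^ 2 + 1), 2 * (n : ℝ) ^ (-σ) / n * |Td h n| ≤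
      18 * (1 + 2 * Real.log M) := by
    rw [Finset.sum_range_succ', Td_zero h h0, abs_zero, mul_zero, add_zero]
    have h2 : ∑ i ∈ range (M ^ 2), ((i + 1 : ℕ) : ℝ)⁻¹ ≤ 1 + 2 * Real.log M := by
      have h5 := harmonic_le_one_add_log (M ^ 2)
      unfold harmonic at h5
      push_cast at h5
      rw [Real.log_pow] at h5
      push_cast at h5 ⊢
      exact h5
    calc ∑ i ∈ range (M ^ 2), 2 * ((i + 1 : ℕ) : ℝ) ^ (-σ) / ((i + 1 : ℕ) : ℝ) * |Td h (i + 1)|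
        ≤ ∑ i ∈ range (M ^ 2), 18 * ((i + 1 : ℕ) : ℝ)⁻¹ :=
          Finset.sum_le_sum fun i _ => hb1 (i + 1) (by omega)
      _ = 18 * ∑ i ∈ range (M ^ 2), ((i + 1 : ℕ) : ℝ)⁻¹ := by rw [Finset.mul_sum]
      _ ≤ 18 * (1 + 2 * Real.log M) := mul_le_mul_of_nonneg_left h2 (by norm_num)
  have hp2 : ∑ k ∈ range X, 2 * ((M ^ 2 + 1 + k : ℕ) : ℝ) ^ (-σ) / ((M ^ 2 + 1 + k : ℕ) : ℝ) *
      |Td h (M ^ 2 + 1 + k)| ≤ 8 * C₁ := by
    have hM2 : (0 : ℝ) < (M : ℝ) ^ 2 := by positivity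
    calc ∑ k ∈ range X, 2 * ((M ^ 2 + 1 + k : ℕ) : ℝ) ^ (-σ) / ((M ^ 2 + 1 + k : ℕ) : ℝ) *
          |Td h (M ^ 2 + 1 + k)|
        ≤ ∑ k ∈ range X, 8 * C₁ * (M : ℝ) ^ (1 / 2 : ℝ) *
            (((M : ℝ) ^ 2 + (k : ℕ)) ^ (-(1 / 4) : ℝ) -
              ((M : ℝ) ^ 2 + ((k + 1 : ℕ) : ℝ)) ^ (-(1 / 4) : ℝ)) := by
          refine Finset.sum_le_sum fun k _ => (hb2 _ (by omega)).trans ?_
          have h2 := quarter (m := (M : ℝ) ^ 2 + (k : ℕ)) (by positivity)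
          have e1 : (((M ^ 2 + 1 + k : ℕ) : ℕ) : ℝ) = (M : ℝ) ^ 2 + (k : ℕ) + 1 := by
            push_cast
            ring
          have e2 : (M : ℝ) ^ 2 + ((k + 1 : ℕ) : ℝ) = (M : ℝ) ^ 2 + (k : ℕ) + 1 := by
            push_cast
            ring
          rw [e1, e2]
          have h5 : 0 ≤ 2 * C₁ * (M : ℝ) ^ (1 / 2 : ℝ) := by positivity
          nlinarith [mul_le_mul_of_nonneg_left h2 h5]
      _ = 8 * C₁ * (M : ℝ) ^ (1 / 2 : ℝ) * (((M : ℝ) ^ 2 + ((0 : ℕ) : ℝ)) ^ (-(1 / 4) : ℝ) -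
              ((M : ℝ) ^ 2 + (X : ℕ)) ^ (-(1 / 4) : ℝ)) := by
          rw [← Finset.mul_sum,
            Finset.sum_range_sub' (fun k : ℕ => ((M : ℝ) ^ 2 + (k : ℕ)) ^ (-(1 / 4) : ℝ))]
      _ ≤ 8 * C₁ * (M : ℝ) ^ (1 / 2 : ℝ) * (((M : ℝ) ^ 2 + ((0 : ℕ) : ℝ)) ^ (-(1 / 4) : ℝ)) := by
          refine mul_le_mul_of_nonneg_left ?_ (by positivity)
          have : 0 ≤ ((M : ℝ) ^ 2 + (X : ℕ)) ^ (-(1 / 4) : ℝ) := by positivity
          linarith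
      _ = 8 * C₁ := by
          rw [Nat.cast_zero, add_zero, ← Real.rpow_natCast, ← Real.rpow_mul hM0.le, mul_assoc,
            ← Real.rpow_add hM0]
          norm_num
  nlinarith [mul_nonneg hC₁0 hlog]

end Pool.Agent.Y692.PP
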